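import Mathlib
import Pool.Agent.TH932.App2

set_option autoImplicit false

/-!
# The columns of the multiplication-by-3/2 automaton have superlinear complexity
-/

namespace Pool.Agent.Results.MP_cc0c1a_nt.ColumnComplexity

open Filter Topology Pool.Agent.TH932.Words Pool.Agent.TH932.App

/-- the automaton multiplying by three in base six -/
def F3 (x : ℤ → Fin 6) : ℤ → Fin 6 :=
  fun i => Fin.ofNat 6 ((3 * (x i : ℕ)) % 6 + (3 * (x (i + 1) : ℕ)) / 6)

/-- the automaton multiplying by three halves in base six -/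
def F (x : ℤ → Fin 6) : ℤ → Fin 6 := F3 (F3 fun i => x (i - 1))

/-- the number of different blocks of `n` consecutive symbols in the column `j` of the space-time
diagram of `x` -/
noncomputable def columnBlocks (x : ℤ → Fin 6) (j : ℤ) (n : ℕ) : ℕ :=
  (Set.range fun i : ℕ => fun k : Fin n => F^[i + k] x j).ncard

lemma F3_val (x : ℤ → Fin 6) (i : ℤ) :
    ((F3 x i : Fin 6) : ℕ) = (3 * (x i : ℕ)) % 6 + (x (i + 1) : ℕ) / 2 := by
  have h1 := (x i).isLt
  have h2 := (x (i + 1)).isLt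
  unfold F3
  rw [Fin.ofNat]
  simp only
  omega

/-- `U j` is the integer with the digits of `x` up to the position `j` -/
def IP (x : ℤ → Fin 6) (U : ℤ → ℕ) : Prop := ∀ j, U j = (x j : ℕ) + 6 * U (j - 1)

lemma IP_F3 {x : ℤ → Fin 6} {U : ℤ → ℕ} (h : IP x U) :
    IP (F3 x) (fun j => 3 * U j + (x (j + 1) : ℕ) / 2) := by
  intro j
  rw [F3_val]
  have h1 := h j
  have h2 := (x j).isLt
  have h3 : j - 1 + 1 = j := by ring
  simp only [h3]
  omega

lemma IP_shift {x : ℤ → Fin 6} {U : ℤ → ℕ} (h : IP x U) :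
    IP (fun i => x (i - 1)) (fun j => U (j - 1)) := fun j => h (j - 1)

/-- the integers after one step -/
def nxt (x : ℤ → Fin 6) (U : ℤ → ℕ) : ℤ → ℕ := fun j =>
  3 * (3 * U (j - 1) + (x j : ℕ) / 2) + ((3 * (x j : ℕ)) % 6 + (x (j + 1) : ℕ) / 2) / 2

lemma IP_F {x : ℤ → Fin 6} {U : ℤ → ℕ} (h : IP x U) : IP (F x) (nxt x U) := by
  have h1 := IP_F3 (IP_F3 (IP_shift h))
  have h2 : (fun j => 3 * (3 * U (j - 1) + ((fun i => x (i - 1)) (j + 1) : ℕ) / 2)
      + (F3 (fun i => x (i - 1)) (j + 1) : ℕ) / 2) = nxt x U := by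
    funext j
    unfold nxt
    rw [F3_val]
    have e1 : j + 1 - 1 = j := by ring
    have e2 : j + 1 + 1 - 1 = j + 1 := by ring
    simp only [e1, e2]
  rw [h2] at h1
  exact h1

/-- the difference word -/
def dif (x : ℤ → Fin 6) (j : ℤ) : ℤ :=
  2 * ((((3 * (x j : ℕ)) % 6 + (x (j + 1) : ℕ) / 2) / 2 : ℕ) : ℤ) - 3 * (((x j : ℕ) % 2 : ℕ) : ℤ)

lemma nxt_rec {x : ℤ → Fin 6} {U : ℤ → ℕ} (h : IP x U) (j : ℤ) :
    2 * (nxt x U j : ℤ) = 3 * (U j : ℤ) + dif x j := by
  have h1 := h j
  unfold nxt dif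
  omega

lemma dif_range (x : ℤ → Fin 6) (j : ℤ) : -1 ≤ dif x j ∧ dif x j ≤ 2 := by
  have h1 := (x j).isLt
  have h2 := (x (j + 1)).isLt
  unfold dif
  omega

/-- the integers along the orbit -/
def UU (x : ℤ → Fin 6) (U : ℤ → ℕ) : ℕ → ℤ → ℕ
  | 0 => U
  | n + 1 => nxt (F^[n] x) (UU x U n)

lemma IP_UU {x : ℤ → Fin 6} {U : ℤ → ℕ} (h : IP x U) (n : ℕ) : IP (F^[n] x) (UU x U n) := by
  induction n with
  | zero => exact h
  | succ n ih =>
    rw [Function.iterate_succ_apply']
    exact IP_F ih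

lemma UU_rec {x : ℤ → Fin 6} {U : ℤ → ℕ} (h : IP x U) (n : ℕ) (j : ℤ) :
    2 * (UU x U (n + 1) j : ℤ) = 3 * (UU x U n j : ℤ) + dif (F^[n] x) j :=
  nxt_rec (IP_UU h n) j

/-- growth far to the right -/
lemma UU_growth {x : ℤ → Fin 6} {U : ℤ → ℕ} (h : IP x U) {j : ℤ} (hj : 2 ≤ U j) (n : ℕ) :
    n + 2 ≤ 2 * UU x U n j := by
  have key : ∀ n : ℕ, (n : ℤ) + 2 ≤ 2 * ((UU x U n j : ℤ) - 1) ∧ 2 ≤ UU x U n j := by
    intro n
    induction n with
    | zero =>
      constructor
      · have : (2 : ℤ) ≤ (UU x U 0 j : ℤ) := by exact_mod_cast hj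
        push_cast
        linarith
      · exact hj
    | succ n ih =>
      obtain ⟨h1, h2⟩ := ih
      have h3 := UU_rec h n j
      have h4 := (dif_range (F^[n] x) j).1
      have h2' : (2 : ℤ) ≤ (UU x U n j : ℤ) := by exact_mod_cast h2
      push_cast
      refine ⟨by omega, by omega⟩
  have := (key n).1
  omega

lemma IP_div {x : ℤ → Fin 6} {U : ℤ → ℕ} (h : IP x U) (j : ℤ) (t : ℕ) :
    U j = U (j + t) / 6 ^ t := by
  induction t with
  | zero => simp
  | succ t ih =>
    have h1 := h (j + (t + 1 : ℕ))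
    have h2 : j + ((t + 1 : ℕ) : ℤ) - 1 = j + t := by push_cast; ring
    rw [h2] at h1
    have h3 := (x (j + ((t + 1 : ℕ) : ℤ))).isLt
    rw [ih, pow_succ, mul_comm, ← Nat.div_div_eq_div_mul]
    congr 1
    omega

/-- the integers of a finite configuration -/
lemma exists_IP (x : ℤ → Fin 6) (hfin : {i | x i ≠ 0}.Finite) (hx : ∃ i, x i ≠ 0) :
    ∃ U : ℤ → ℕ, IP x U ∧ ∃ j0 : ℤ, 1 ≤ U j0 := by
  classical
  obtain ⟨a, ha⟩ := hfin.bddBelow
  have ha' : ∀ i, i < a → x i = 0 := by
    intro i hi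
    by_contra hne
    have := ha hne
    omega
  refine ⟨fun j => ∑ k ∈ Finset.range (j - a + 1).toNat, (x (j - k) : ℕ) * 6 ^ k, ?_, ?_⟩
  · intro j
    by_cases hj : j < a
    · have e1 : (j - a + 1).toNat = 0 := by omega
      have e2 : (j - 1 - a + 1).toNat = 0 := by omega
      simp [e1, e2, ha' j hj]
    · push Not at hj
      have e1 : (j - a + 1).toNat = (j - 1 - a + 1).toNat + 1 := by omega
      simp only [e1]
      rw [Finset.sum_range_succ', Finset.mul_sum, add_comm]
      congr 1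
      · simp
      · apply Finset.sum_congr rfl
        intro k _
        have e2 : j - ((k + 1 : ℕ) : ℤ) = j - 1 - k := by push_cast; ring
        rw [e2, pow_succ]
        ring
  · obtain ⟨i, hi⟩ := hx
    refine ⟨i, ?_⟩
    have hai : a ≤ i := ha hi
    have e1 : (i - a + 1).toNat = (i - a).toNat + 1 := by omega
    simp only [e1]
    rw [Finset.sum_range_succ']
    have h1 : 1 ≤ ((x (i - ((0 : ℕ) : ℤ)) : Fin 6) : ℕ) * 6 ^ 0 := by
      simp only [Nat.cast_zero, sub_zero, pow_zero, mul_one]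
      have : ((x i : Fin 6) : ℕ) ≠ 0 := fun h => hi (Fin.ext h)
      omega
    omega

/-- the difference word as a word over the residues modulo six -/
def wd (x : ℤ → Fin 6) (j : ℤ) (n : ℕ) : ZMod 6 :=
  2 * ((F^[n + 1] x j : ℕ) : ZMod 6) - 3 * ((F^[n] x j : ℕ) : ZMod 6)

/-- the difference of a residue -/
def bt (a : ZMod 6) : ℤ := if a = 5 then -1 else if a = 1 then 1 else if a = 2 then 2 else 0

lemma bt_cast {d : ℤ} (h1 : -1 ≤ d) (h2 : d ≤ 2) : bt ((d : ℤ) : ZMod 6) = d := by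
  have : d = -1 ∨ d = 0 ∨ d = 1 ∨ d = 2 := by omega
  rcases this with rfl | rfl | rfl | rfl <;> decide

lemma bt_wd {x : ℤ → Fin 6} {U : ℤ → ℕ} (h : IP x U) (n : ℕ) (j : ℤ) :
    bt (wd x j n) = dif (F^[n] x) j := by
  have h1 := IP_UU h n j
  have h2 := IP_UU h (n + 1) j
  have h3 := UU_rec h n j
  obtain ⟨h4, h5⟩ := dif_range (F^[n] x) j
  rw [← bt_cast h4 h5]
  congr 1
  unfold wd
  have h6 : dif (F^[n] x) j = 2 * (UU x U (n + 1) j : ℤ) - 3 * (UU x U n j : ℤ) := by linarith
  rw [h6, h1, h2]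
  have h7 : (6 : ZMod 6) = 0 := by decide
  push_cast
  linear_combination (-(2 * (UU x U (n + 1) (j - 1) : ZMod 6)) + 3 * (UU x U n (j - 1) : ZMod 6)) * h7

/-- **Result.** For every finite configuration `x` that is not identically zero and every position
`j`, the number of different blocks of `n` consecutive symbols in the sequence
`x j, F x j, F (F x) j, …` grows faster than every linear function of `n`. -/
theorem result (x : ℤ → Fin 6) (hfin : {i | x i ≠ 0}.Finite) (hx : ∃ i, x i ≠ 0) (j : ℤ) :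
    Tendsto (fun n : ℕ => (columnBlocks x j n : ℝ) / n) atTop atTop := by
  obtain ⟨U, hU, j0, hj0⟩ := exists_IP x hfin hx
  -- the integers tend to infinity
  obtain ⟨n0, hn0⟩ : ∃ n0, 2 ≤ UU x U n0 j := by
    obtain ⟨t, ht⟩ : ∃ t : ℕ, j0 + 1 ≤ j + t := ⟨(j0 + 1 - j).toNat, by omega⟩
    obtain ⟨s, hs⟩ : ∃ s : ℕ, j + t = j0 + 1 + s := ⟨(j + t - (j0 + 1)).toNat, by omega⟩
    have h1 : 2 ≤ U (j + t) := by
      have h2 := IP_div hU j0 (s + 1)
      have e : j0 + ((s + 1 : ℕ) : ℤ) = j + t := by push_cast; omega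
      rw [e] at h2
      by_contra hlt
      push Not at hlt
      have h3 : U (j + t) / 6 ^ (s + 1) = 0 := by
        apply Nat.div_eq_of_lt
        calc U (j + t) < 2 := hlt
          _ ≤ 6 ^ (s + 1) := by
            rw [pow_succ]
            have : 1 ≤ 6 ^ s := Nat.one_le_pow _ _ (by norm_num)
            omega
      omega
    refine ⟨4 * 6 ^ t, ?_⟩
    have h2 := UU_growth hU h1 (4 * 6 ^ t)
    rw [IP_div (IP_UU hU _) j t, Nat.le_div_iff_mul_le (by positivity)]
    omega
  have hge : ∀ k, 2 ≤ UU x U (n0 + k) j := by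
    intro k
    induction k with
    | zero => exact hn0
    | succ k ih =>
      have h1 := UU_rec hU (n0 + k) j
      have h2 := (dif_range (F^[n0 + k] x) j).1
      rw [← add_assoc]
      omega
  have hmono : StrictMono fun k => (UU x U (n0 + k) j : ℤ) := by
    apply strictMono_nat_of_lt_succ
    intro k
    have h1 := UU_rec hU (n0 + k) j
    have h2 := (dif_range (F^[n0 + k] x) j).1
    have h3 := hge k
    rw [← add_assoc]
    omega
  have hmain := superlinear_affine (p := 2) (q := 3) le_rfl (by norm_num)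
    (by norm_num [Int.isCoprime_iff_gcd_eq_one]) bt (wd x j) (fun k => (UU x U k j : ℤ)) (by
      intro k
      rw [bt_wd hU]
      have := UU_rec hU k j
      push_cast
      linarith) n0 hmono.injective
  have hb : ∀ n, columnBlocks x j n = cx (fun k => F^[k] x j) n := fun n => rfl
  -- the difference word is read off from the column
  have hdep : ∀ n, cx (wd x j) n ≤ cx (fun k => F^[k] x j) (2 * n) := by
    intro n
    rcases Nat.eq_zero_or_pos n with h0 | h0
    · subst h0
      exact cx_le_of_dep (fun i => i) fun i j' _ k hk => absurd hk (Nat.not_lt_zero k)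
    · refine cx_le_of_dep (fun i => i) fun i i' h k hk => ?_
      have h1 := h k (by omega)
      have h2 := h (k + 1) (by omega)
      simp only at h1 h2
      unfold wd
      rw [add_assoc, add_assoc, h1, h2]
  exact tendsto_of_le (f := cx (wd x j)) (g := cx (fun k => F^[k] x j)) (a := 2) (by norm_num)
    (Pool.Agent.TH932.Asm.cx_mono _) hdep hmain

end Pool.Agent.Results.MP_cc0c1a_nt.ColumnComplexity
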