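import Mathlib
import Pool.Agent.TH419.WI.BaseBW
import Pool.Agent.H429R2.Auto

/-!
# Long words in the rows of the automaton are linearly independent

Words of `m` consecutive cells, taken inside different rows `F^n x` of a finite nonzero configuration
or at different positions of the same row, satisfy no real linear relation, even up to `K` errors and
up to periodic sequences with small periods.
-/

set_option autoImplicit false

open Finset

namespace Pool.Agent.Results.MP_cc0c1a_nt.RowWindowIndependence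

open Pool.Agent.H429R2.Auto (Conf F Rep rep_iter exists_rep)
open Pool.Agent.TH419.WI (windowsB)

/-- the cells of a row as digits of `A0 9 ^ n` -/
theorem cell {x : Conf} {A0 k : ℕ} (hx : Rep x ((A0 : ℝ) / 6 ^ k)) (n u : ℕ) (i : ℤ)
    (hi : i + u = n + k) : ((F^[n] x i : Fin 6) : ℕ) = A0 * 3 ^ (2 * n) / 6 ^ u % 6 := by
  have hβ : (0 : ℝ) ≤ (A0 : ℝ) / 6 ^ k := by positivity
  rw [rep_iter hβ hx n i]
  have e3 : (6 : ℝ) ^ i * ((3 / 2) ^ n * (A0 / 6 ^ k)) =
      ((A0 * 3 ^ (2 * n) : ℕ) : ℝ) / ((6 ^ u : ℕ) : ℝ) := by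
    rw [show i = ((n + k : ℕ) : ℤ) - (u : ℕ) by push_cast; omega,
      zpow_sub₀ (by norm_num), zpow_natCast, zpow_natCast]
    push_cast
    have h9 : (3 : ℝ) ^ (2 * n) = 6 ^ n * (3 / 2) ^ n := by rw [pow_mul, ← mul_pow]; norm_num
    rw [h9, pow_add]
    field_simp
  rw [e3, Nat.floor_div_eq_div]

/-- the cells of a row to the right of `n + k` are zero -/
theorem cell_zero {x : Conf} {A0 k : ℕ} (hx : Rep x ((A0 : ℝ) / 6 ^ k)) (n : ℕ) (i : ℤ)
    (hi : (n + k : ℤ) < i) : F^[n] x i = 0 := by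
  have hβ : (0 : ℝ) ≤ (A0 : ℝ) / 6 ^ k := by positivity
  obtain ⟨l, hl⟩ : ∃ l : ℕ, i = (n + k : ℤ) + (l + 1 : ℕ) := ⟨(i - (n + k) - 1).toNat, by omega⟩
  have h1 := rep_iter hβ hx n i
  have e3 : (6 : ℝ) ^ i * ((3 / 2) ^ n * (A0 / 6 ^ k)) = ((6 * (6 ^ l * (A0 * 3 ^ (2 * n))) : ℕ) : ℝ) := by
    rw [hl, show (n + k : ℤ) + (l + 1 : ℕ) = ((n + k + (l + 1) : ℕ) : ℤ) by push_cast; ring,
      zpow_natCast]
    push_cast
    have h9 : (3 : ℝ) ^ (2 * n) = 6 ^ n * (3 / 2) ^ n := by rw [pow_mul, ← mul_pow]; norm_num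
    rw [h9, pow_add, pow_add, pow_succ]
    field_simp
  rw [e3, Nat.floor_natCast, Nat.mul_mod_right] at h1
  exact Fin.ext h1

/-- Let `x` be a finite nonzero configuration; fix `D, E, K, C` and `ε > 0`.  There is `M` such that
the following holds for every `m ≥ M`.  Take `D` different pairs `(n_j, s_j)` of a time
`n_j ≤ C m` and a position `s_j`, where the times are pairwise equal or at least `M` apart, and where
the row `F ^ n_j x` has a nonzero cell to the left of `s_j` and a nonzero cell at `s_j + m - 1` or to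
the right of it.  Let `w_j` be the word of the `m` cells `s_j, …, s_j + m - 1` of the row
`F ^ n_j x`.  No nontrivial real linear combination of `w_1, …, w_D` agrees outside `K` places with a
sum of `E` periodic sequences whose periods add up to at most `(1 - ε) m / (K + 1)`. -/
theorem result (x : ℤ → Fin 6) (hfin : {i | x i ≠ 0}.Finite) (hx : ∃ i, x i ≠ 0)
    (D E K C : ℕ) (ε : ℝ) (hε : 0 < ε) :
    ∃ M : ℕ, ∀ m : ℕ, M ≤ m → ∀ (n : Fin D → ℕ) (s : Fin D → ℤ),
      Function.Injective (fun j => (n j, s j)) →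
      (∀ j, n j ≤ C * m) →
      (∀ j, (∃ i : ℤ, i < s j ∧ F^[n j] x i ≠ 0) ∧ ∃ i : ℤ, s j + m - 1 ≤ i ∧ F^[n j] x i ≠ 0) →
      (∀ i j, n i ≠ n j → n i + M ≤ n j ∨ n j + M ≤ n i) →
      ∀ lam : Fin D → ℝ, lam ≠ 0 → ∀ per : Fin E → ℕ, (∀ l, 0 < per l) →
      ((∑ l, per l : ℕ) : ℝ) ≤ (1 - ε) * m / (K + 1) →
      ∀ f : Fin E → ℕ → ℝ, (∀ l i, f l (i + per l) = f l i) →
      K < ((Finset.range m).filter (fun i : ℕ =>
        ∑ j, lam j * (((F^[n j] x (s j + i) : Fin 6) : ℕ) : ℝ) ≠ ∑ l, f l i)).card := by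
  obtain ⟨A0, k, hrep, hA0, -⟩ := exists_rep (x := x) hfin
  have hA0 : 0 < A0 := hA0 (by
    rintro rfl
    obtain ⟨i, hi⟩ := hx
    exact hi rfl)
  obtain ⟨M1, hM1⟩ := windowsB 3 2 1 1 6 A0 (by norm_num) (by norm_num) (by norm_num) (by norm_num)
    (by norm_num) hA0 D E K (2 * C) ε hε
  refine ⟨max M1 1, ?_⟩
  intro m hm n s hinj hnC hsupp hsep lam hlam per hper hsum f hf
  have hm1 : 1 ≤ m := (le_max_right _ _).trans hm
  have hex : ∀ j, ∃ t : ℕ, s j + (m - 1 : ℕ) + t = n j + k := by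
    intro j
    obtain ⟨i, hi1, hi2⟩ := (hsupp j).2
    have h1 : i ≤ n j + k := by
      by_contra hcon
      exact hi2 (cell_zero hrep (n j) i (by omega))
    exact ⟨(n j + k - s j - (m - 1 : ℕ)).toNat, by omega⟩
  choose t ht using hex
  have hmain := hM1 m ((le_max_left _ _).trans hm) (fun j => 2 * n j) t
    (by
      intro i j hij
      simp only [Prod.mk.injEq] at hij
      obtain ⟨h1, h2⟩ := hij
      apply hinj
      simp only [Prod.mk.injEq]
      have h3 := ht i
      have h4 := ht j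
      have h5 : n i = n j := by omega
      refine ⟨h5, ?_⟩
      rw [h2, h5] at h3
      omega)
    (by
      intro j
      have h1 := hnC j
      show 2 * n j ≤ 2 * C * m
      rw [mul_assoc]
      omega)
    (by
      intro j
      obtain ⟨i, hi1, hi2⟩ := (hsupp j).1
      obtain ⟨u, hu⟩ : ∃ u : ℕ, i + u = n j + k := ⟨(n j + k - i).toNat, by
        have := ht j
        omega⟩
      have h1 := cell hrep (n j) u i hu
      have h2 : 6 ^ u ≤ A0 * 3 ^ (2 * n j) := by
        by_contra hcon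
        rw [Nat.div_eq_of_lt (by omega), Nat.zero_mod] at h1
        exact hi2 (Fin.ext h1)
      refine le_trans (Nat.pow_le_pow_right (by norm_num) ?_) h2
      have := ht j
      omega)
    (by
      intro i j hij
      have h1 : M1 ≤ max M1 1 := le_max_left _ _
      rcases hsep i j (by intro h; apply hij; simp only [h]) with h2 | h2
      · left
        show 2 * n i + M1 ≤ 2 * n j
        omega
      · right
        show 2 * n j + M1 ≤ 2 * n i
        omega)
    lam hlam per hper hsum f hf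
  refine lt_of_lt_of_le hmain (le_of_eq ?_)
  congr 1
  apply Finset.filter_congr
  intro i hi
  have hi' := Finset.mem_range.1 hi
  have h1 : ∑ j, lam j * ((A0 * 3 ^ (2 * n j) / 6 ^ (t j + (m - 1 - i)) % 6 : ℕ) : ℝ) =
      ∑ j, lam j * (((F^[n j] x (s j + i) : Fin 6) : ℕ) : ℝ) := by
    apply Finset.sum_congr rfl
    intro j _
    rw [cell hrep (n j) (t j + (m - 1 - i)) (s j + i) (by
      have := ht j
      push_cast
      omega)]
  rw [h1]

end Pool.Agent.Results.MP_cc0c1a_nt.RowWindowIndependence
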