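import Mathlib
import Pool.Agent.TH461.AL.ColW
import Pool.Agent.TH461.AL.WbC
import Pool.Agent.H429R2.Auto

/-!
# Every word many times in every long window of times, at almost every position

Let `x` be a finite nonzero configuration. All but `δ M` of the positions `p` in `[-M, M]` are such
that every word of length `L` occurs at the position `p` in at least `M ^ (1 - κ)` of the
configurations `F^n x`, `s ≤ n < s + l`, for every window of `l ≥ ε M` consecutive times up to `R M`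
in which `p` is a position of the row `F^s x`.
-/

set_option autoImplicit false

namespace Pool.Agent.Results.MP_cc0c1a_nt.WordsInColumns

open Pool.Agent.H429R2.Auto (Conf F Rep letter rep_iter digits_sum sum_lt exists_rep)

/-- The configuration `x` shows the word `w` at the cells `p, p + 1, …, p + |w| - 1`. -/
def ShowsAt (x : ℤ → Fin 6) (w : List (Fin 6)) (p : ℤ) : Prop :=
  ∀ (i : ℕ) (h : i < w.length), x (p + i) = w[i]

/-- the number coding the word -/
def code (w : List (Fin 6)) : ℕ :=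
  ∑ r ∈ Finset.range w.length, ((w.getD (w.length - 1 - r) 0 : Fin 6) : ℕ) * 6 ^ r

theorem code_lt (w : List (Fin 6)) : code w < 6 ^ w.length :=
  sum_lt w.length fun r => w.getD (w.length - 1 - r) 0

theorem shows_of {x : Conf} {β : ℝ} (hβ : 0 ≤ β) (hx : Rep x β) (w : List (Fin 6)) (j : ℤ) (n : ℕ)
    (h : ⌊(6 : ℝ) ^ (j + w.length - 1) * ((3 / 2) ^ n * β)⌋₊ % 6 ^ w.length = code w) :
    ShowsAt (F^[n] x) w j := by
  intro i hi
  have h1 := letter (rep_iter hβ hx n) j w.length (w.length - 1 - i) (by omega)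
  rw [h] at h1
  have h2 := digits_sum w.length (fun r => w.getD (w.length - 1 - r) 0) (w.length - 1 - i) (by omega)
  have e1 : j + (w.length : ℤ) - 1 - ((w.length - 1 - i : ℕ) : ℤ) = j + i := by omega
  rw [e1] at h1
  have e2 : w.length - 1 - (w.length - 1 - i) = i := by omega
  unfold code at h1
  rw [h2] at h1
  simp only [e2] at h1
  have h3 : w.getD i 0 = w[i] := by
    rw [List.getD_eq_getElem?_getD, List.getElem?_eq_getElem hi]; rfl
  rw [h3] at h1
  exact Fin.ext h1

open Classical in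
/-- Let `x` be a finite nonzero configuration, `L, R` natural numbers and `ε, κ, δ > 0`. There is an
`M₀` such that for all `M ≥ M₀`: for all but at most `δ M` of the positions `p` with
`-M ≤ p ≤ M`, every word `w` of length `L` and every window of times `[s, s + l)` with
`p ≤ s`, `-s log_6 (3/2) ≤ p`, `s + l ≤ R M` and `l ≥ ε M`, there are at least `M ^ (1 - κ)` times
`n` with `s ≤ n < s + l` such that `F^n x` shows `w` at the position `p`. -/
theorem result (x : ℤ → Fin 6) (hfin : {i | x i ≠ 0}.Finite) (hx : ∃ i, x i ≠ 0) (L R : ℕ)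
    (ε κ δ : ℝ) (hε : 0 < ε) (hκ : 0 < κ) (hδ : 0 < δ) :
    ∃ M₀ : ℕ, ∀ M : ℕ, M₀ ≤ M →
      (((Finset.Icc (-(M : ℤ)) M).filter (fun p : ℤ => ¬ ∀ s l : ℕ, p ≤ s →
        -((s : ℝ) * (Real.log (3 / 2) / Real.log 6)) ≤ p → s + l ≤ R * M → ε * M ≤ l →
          ∀ w : List (Fin 6), w.length = L →
            (M : ℝ) ^ (1 - κ) ≤ (((Finset.Ico s (s + l)).filter (fun n : ℕ =>
              ShowsAt (F^[n] x) w p)).card : ℝ))).card : ℝ) ≤ δ * M := by
  obtain ⟨m, k, hrep, hm, -⟩ := exists_rep (x := x) hfin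
  have hm : 0 < m := hm (by
    rintro rfl
    obtain ⟨i, hi⟩ := hx
    exact hi rfl)
  have hβ : (0 : ℝ) ≤ (m : ℝ) / 6 ^ k := by positivity
  obtain ⟨M₀, hM₀⟩ := Pool.Agent.TH461.AL.ColW.columns Pool.Agent.TH461.AL.WbC.wordb (u := 2) (w := 3)
    (by norm_num) (by norm_num) (by norm_num) (m := m) hm k L R hε hκ hδ
  refine ⟨M₀, fun M hM => le_trans (Nat.cast_le.2 (Finset.card_le_card ?_)) (hM₀ M hM)⟩
  intro p hp
  rw [Finset.mem_filter] at hp ⊢
  refine ⟨hp.1, fun hall => hp.2 fun s l h1 h2 h3 h4 w hw => ?_⟩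
  have hl6 : 0 < Real.log 6 := Real.log_pos (by norm_num)
  have h6 : ((2 * 3 : ℕ) : ℝ) = 6 := by norm_num
  have h6z : ((2 * 3 : ℕ) : ℤ) = 6 := by norm_num
  have hsz : 0 ≤ (s : ℝ) * Real.log (((3 : ℕ) : ℝ) / ((2 : ℕ) : ℝ)) +
      p * Real.log ((2 * 3 : ℕ) : ℝ) := by
    rw [h6]
    push_cast
    have h5 : (s : ℝ) * (Real.log (3 / 2) / Real.log 6) * Real.log 6 = s * Real.log (3 / 2) := by
      field_simp
    have := mul_le_mul_of_nonneg_right h2 hl6.le
    linarith
  have h7 := hall s l h1 hsz h3 h4 (code w) (by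
    have := code_lt w
    rw [hw] at this
    norm_num
    exact this)
  refine h7.trans (Nat.cast_le.2 (Finset.card_le_card ?_))
  intro n hn
  rw [Finset.mem_filter] at hn ⊢
  refine ⟨hn.1, shows_of hβ hrep w p n ?_⟩
  have h8 := hn.2
  rw [h6, h6z] at h8
  push_cast at h8
  have h9 : (0 : ℝ) ≤ (6 : ℝ) ^ (p + L - 1) * ((3 / 2) ^ n * ((m : ℝ) / 6 ^ k)) := by positivity
  have h10 : ((⌊(6 : ℝ) ^ (p + L - 1) * ((3 / 2) ^ n * ((m : ℝ) / 6 ^ k))⌋₊ : ℕ) : ℤ) =
      ⌊(6 : ℝ) ^ (p + L - 1) * ((3 / 2) ^ n * ((m : ℝ) / 6 ^ k))⌋ := by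
    rw [← Int.floor_toNat]
    exact Int.toNat_of_nonneg (Int.floor_nonneg.2 h9)
  rw [hw]
  rw [← h10] at h8
  exact_mod_cast h8

end Pool.Agent.Results.MP_cc0c1a_nt.WordsInColumns
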