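import Mathlib
import Pool.Agent.TH461.AL.Dec2
import Pool.Agent.H429R2.Auto

/-!
# Every word many times in every long window of most rows

Let `x` be a finite nonzero configuration. Among any `M` consecutive times `n` (the position of the
times is arbitrary) all but `δ M` are such that every word of length `L` occurs at least
`M ^ (1 - κ)` times in every window of `ε n` consecutive cells of the part `(-n log_6 (3/2), n)` of
the row `F^n x`.
-/

set_option autoImplicit false

namespace Pool.Agent.Results.MP_cc0c1a_nt.WordsInRowWindows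

open Pool.Agent.H429R2.Auto (Conf F Rep letter rep_iter digits_sum sum_lt exists_rep)

/-- The configuration `x` shows the word `w` at the cells `p, p + 1, …, p + |w| - 1`. -/
def ShowsAt (x : ℤ → Fin 6) (w : List (Fin 6)) (p : ℤ) : Prop :=
  ∀ (i : ℕ) (h : i < w.length), x (p + i) = w[i]

/-- the number coding the word -/
def code (w : List (Fin 6)) : ℕ :=
  ∑ r ∈ Finset.range w.length, ((w.getD (w.length - 1 - r) 0 : Fin 6) : ℕ) * 6 ^ r

theorem code_lt (w : List (Fin 6)) : code w < 6 ^ w.length :=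
  sum_lt w.length fun r => w.getD (w.length - 1 - r) 0

theorem shows_of {x : Conf} {β : ℝ} (hβ : 0 ≤ β) (hx : Rep x β) (w : List (Fin 6)) (j : ℤ) (n : ℕ)
    (h : ⌊(6 : ℝ) ^ (j + w.length - 1) * ((3 / 2) ^ n * β)⌋₊ % 6 ^ w.length = code w) :
    ShowsAt (F^[n] x) w j := by
  intro i hi
  have h1 := letter (rep_iter hβ hx n) j w.length (w.length - 1 - i) (by omega)
  rw [h] at h1
  have h2 := digits_sum w.length (fun r => w.getD (w.length - 1 - r) 0) (w.length - 1 - i) (by omega)
  have e1 : j + (w.length : ℤ) - 1 - ((w.length - 1 - i : ℕ) : ℤ) = j + i := by omega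
  rw [e1] at h1
  have e2 : w.length - 1 - (w.length - 1 - i) = i := by omega
  unfold code at h1
  rw [h2] at h1
  simp only [e2] at h1
  have h3 : w.getD i 0 = w[i] := by
    rw [List.getD_eq_getElem?_getD, List.getElem?_eq_getElem hi]; rfl
  rw [h3] at h1
  exact Fin.ext h1

open Classical in
/-- Let `x` be a finite nonzero configuration, `L` a natural number and `ε, κ, δ > 0`. There is an
`M₀` such that for all `s` and all `M ≥ M₀`: for all but at most `δ M` of the times `n` with
`s ≤ n < s + M`, every word of length `L` occurs in the row `F^n x` at least `M ^ (1 - κ)` times in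
every window of length `ε n` inside `[-n log_6 (3/2), n]`: for every integer `A` with
`-n log_6 (3/2) ≤ A` and `A + ε n ≤ n` and every word `w` of length `L` there are at least
`M ^ (1 - κ)` cells `p` with `A ≤ p`, `p + L ≤ A + ε n` such that `F^n x` shows `w` at
`p, …, p + L - 1`. -/
theorem result (x : ℤ → Fin 6) (hfin : {i | x i ≠ 0}.Finite) (hx : ∃ i, x i ≠ 0) (L : ℕ)
    (ε κ δ : ℝ) (hε : 0 < ε) (hκ : 0 < κ) (hδ : 0 < δ) :
    ∃ M₀ : ℕ, ∀ s M : ℕ, M₀ ≤ M →
      (((Finset.Ico s (s + M)).filter (fun n : ℕ => ¬ ∀ A : ℤ,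
        -((n : ℝ) * (Real.log (3 / 2) / Real.log 6)) ≤ A → A + ε * n ≤ n →
          ∀ w : List (Fin 6), w.length = L →
            (M : ℝ) ^ (1 - κ) ≤ (((Finset.Icc A ⌊A + ε * n⌋).filter (fun p : ℤ =>
              (p : ℝ) + L ≤ A + ε * n ∧ ShowsAt (F^[n] x) w p)).card : ℝ))).card : ℝ) ≤ δ * M := by
  obtain ⟨m, k, hrep, hm, -⟩ := exists_rep (x := x) hfin
  have hm : 0 < m := hm (by
    rintro rfl
    obtain ⟨i, hi⟩ := hx
    exact hi rfl)
  have hβ : (0 : ℝ) ≤ (m : ℝ) / 6 ^ k := by positivity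
  set κ' : ℝ := min κ 1 with hκ'
  have hκ0 : 0 < κ' := lt_min hκ one_pos
  have hκ1 : κ' ≤ 1 := min_le_right _ _
  set η : ℝ := ε / 2 / (2 + 8 / δ) with hη
  have hη0 : 0 < η := by positivity
  obtain ⟨M₁, hM₁⟩ := Pool.Agent.TH461.AL.Dec2.pow_windows (u₀ := 3) (v₀ := 2) (by norm_num)
    (by norm_num) (by norm_num) (a := m) hm L (ε := κ') (δ := δ / 8) (η := η) hκ0 (by positivity) hη0
  -- small times
  set n1 : ℕ := ⌈(k + 2) / (ε / 2)⌉₊ with hn1
  have hn1' : (k : ℝ) + 2 ≤ ε / 2 * n1 := by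
    have h1 := Nat.le_ceil ((k + 2) / (ε / 2))
    rw [div_le_iff₀ (by positivity)] at h1
    rw [hn1, mul_comm]
    exact h1
  obtain ⟨M₂, hM₂⟩ := exists_nat_ge (((n1 : ℝ) + 1) / (δ / 2))
  refine ⟨max (max M₁ M₂) 1, fun s M hM => ?_⟩
  have hMM₁ : M₁ ≤ M := ((le_max_left _ _).trans (le_max_left _ _)).trans hM
  have hMM₂ : M₂ ≤ M := ((le_max_right _ _).trans (le_max_left _ _)).trans hM
  have hM1 : 1 ≤ M := (le_max_right _ _).trans hM
  have hMR : (1 : ℝ) ≤ M := by exact_mod_cast hM1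
  have hl6 : 0 < Real.log 6 := Real.log_pos (by norm_num)
  have hl9 : Real.log 9 = Real.log 6 + Real.log (3 / 2) := by
    rw [← Real.log_mul (by norm_num) (by norm_num)]; norm_num
  set n2 : ℕ := ⌈δ / 4 * M⌉₊ with hn2
  set Bad : Finset ℕ := (Finset.range (2 * M)).filter (fun t : ℕ => ¬ ∀ u l : ℕ,
        u + l ≤ (Nat.digits (3 * 2) (m * 3 ^ (2 * s + t))).length →
          η * (((2 * s : ℕ) : ℝ) + ((2 * M : ℕ) : ℝ)) ≤ l →
          ∀ W < (3 * 2) ^ L, (((2 * M : ℕ) : ℕ) : ℝ) ^ (1 - κ') ≤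
            (((Finset.range (u + l)).filter (fun i : ℕ => u ≤ i ∧ i + L ≤ u + l ∧
              m * 3 ^ (2 * s + t) / (3 * 2) ^ i % (3 * 2) ^ L = W)).card : ℝ)) with hBad
  have hBadc : (Bad.card : ℝ) ≤ δ / 8 * ((2 * M : ℕ) : ℝ) := hM₁ (2 * M) (by omega) (2 * s)
  have hsub : (Finset.Ico s (s + M)).filter (fun n : ℕ => ¬ ∀ A : ℤ,
        -((n : ℝ) * (Real.log (3 / 2) / Real.log 6)) ≤ A → A + ε * n ≤ n →
          ∀ w : List (Fin 6), w.length = L →
            (M : ℝ) ^ (1 - κ) ≤ (((Finset.Icc A ⌊A + ε * n⌋).filter (fun p : ℤ =>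
              (p : ℝ) + L ≤ A + ε * n ∧ ShowsAt (F^[n] x) w p)).card : ℝ)) ⊆
      (Finset.range n1 ∪ Finset.range n2) ∪ Bad.image (fun t => s + t / 2) := by
    intro n hn
    rw [Finset.mem_filter, Finset.mem_Ico] at hn
    rw [Finset.mem_union, or_iff_not_imp_left]
    intro hnn
    rw [Finset.mem_union, not_or, Finset.mem_range, Finset.mem_range, not_lt, not_lt] at hnn
    obtain ⟨hn1n, hn2n⟩ := hnn
    rw [Finset.mem_image]
    refine ⟨2 * (n - s), Finset.mem_filter.2 ⟨Finset.mem_range.2 (by omega), ?_⟩, by omega⟩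
    have e1 : 2 * s + 2 * (n - s) = 2 * n := by omega
    rw [e1]
    intro hall
    refine hn.2 fun A hA1 hA2 w hw => ?_
    have hn1R : (n1 : ℝ) ≤ n := by exact_mod_cast hn1n
    have hn2R : δ / 4 * M ≤ n := (Nat.le_ceil _).trans (by exact_mod_cast hn2n)
    have hsR : (s : ℝ) ≤ n := by exact_mod_cast hn.1.1
    have hbig : (k : ℝ) + 2 ≤ ε / 2 * n := hn1'.trans (by gcongr)
    have hn0 : (0 : ℝ) ≤ n := Nat.cast_nonneg _
    have hk0 : (0 : ℝ) ≤ k := Nat.cast_nonneg _
    have hεn : (0 : ℝ) ≤ ε * n := by positivity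
    -- the window of places
    have hAn : A ≤ n := by
      have : (A : ℝ) ≤ n := by linarith
      exact_mod_cast this
    set X : ℝ := n + k + 1 - A - ε * n with hX
    have hX0 : 0 ≤ X := by rw [hX]; linarith
    set u : ℕ := ⌈X⌉₊ with hu
    have hu1 : X ≤ u := Nat.le_ceil X
    have hu2 : (u : ℝ) < X + 1 := Nat.ceil_lt_add_one hX0
    set e : ℕ := (n - A).toNat with he
    have heR : (e : ℝ) = n - A := by
      have h1 : ((e : ℕ) : ℤ) = n - A := by rw [he]; exact Int.toNat_of_nonneg (by omega)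
      have h2 : (((e : ℕ) : ℤ) : ℝ) = ((n - A : ℤ) : ℝ) := by rw [h1]
      push_cast at h2
      exact h2
    have hlen : (u : ℝ) + ε / 2 * n ≤ e := by
      rw [heR]
      linarith
    have hue : u ≤ e := by
      have : (u : ℝ) ≤ e := by
        have : 0 ≤ ε / 2 * n := by positivity
        linarith
      exact_mod_cast this
    obtain ⟨l, hl⟩ : ∃ l, e = u + l := ⟨e - u, by omega⟩
    have hlR : ε / 2 * n ≤ l := by
      have h1 : (e : ℝ) = u + l := by exact_mod_cast hl
      linarith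
    have hdig : u + l ≤ (Nat.digits (3 * 2) (m * 3 ^ (2 * n))).length := by
      rw [← hl]
      have h6 : (3 * 2 : ℕ) = 6 := by norm_num
      rw [h6]
      by_contra hcon
      push Not at hcon
      have h1 : m * 3 ^ (2 * n) < 6 ^ (Nat.digits 6 (m * 3 ^ (2 * n))).length :=
        Nat.lt_base_pow_length_digits (by norm_num)
      have h2 : (6 : ℕ) ^ (Nat.digits 6 (m * 3 ^ (2 * n))).length * 6 ≤ 6 ^ e := by
        rw [← pow_succ]
        exact Nat.pow_le_pow_right (by norm_num) (by omega)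
      have h3 : (((9 : ℝ) ^ n)) * 6 < 6 ^ e := by
        have h4 : 9 ^ n * 6 < 6 ^ e := by
          calc 9 ^ n * 6 ≤ m * 3 ^ (2 * n) * 6 := by
                rw [pow_mul]
                exact Nat.mul_le_mul_right _ (Nat.le_mul_of_pos_left _ hm)
            _ < 6 ^ (Nat.digits 6 (m * 3 ^ (2 * n))).length * 6 := by omega
            _ ≤ _ := h2
        exact_mod_cast h4
      have h5 : Real.log ((9 : ℝ) ^ n * 6) < Real.log (6 ^ e) := Real.log_lt_log (by positivity) h3
      rw [Real.log_mul (by positivity) (by norm_num), Real.log_pow, Real.log_pow, heR, hl9] at h5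
      have h6' : (n : ℝ) * (Real.log (3 / 2) / Real.log 6) * Real.log 6 =
          n * Real.log (3 / 2) := by field_simp
      have h7 : -(n : ℝ) * Real.log (3 / 2) ≤ A * Real.log 6 := by
        have := mul_le_mul_of_nonneg_right hA1 hl6.le
        linarith
      nlinarith
    have hη' : η * (((2 * s : ℕ) : ℝ) + ((2 * M : ℕ) : ℝ)) ≤ l := by
      refine le_trans ?_ hlR
      have h1 : ((2 * s : ℕ) : ℝ) + ((2 * M : ℕ) : ℝ) ≤ (2 + 8 / δ) * n := by
        push_cast
        have h2 : (2 : ℝ) * M ≤ 8 / δ * n := by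
          have h3 : 8 / δ * (δ / 4 * M) ≤ 8 / δ * n := mul_le_mul_of_nonneg_left hn2R (by positivity)
          have h4 : 8 / δ * (δ / 4 * M) = 2 * M := by field_simp; ring
          linarith
        linarith
      calc η * (((2 * s : ℕ) : ℝ) + ((2 * M : ℕ) : ℝ)) ≤ η * ((2 + 8 / δ) * n) :=
            mul_le_mul_of_nonneg_left h1 hη0.le
        _ = ε / 2 * n := by rw [hη]; field_simp
    have hmain := hall u l hdig hη' (code w) (by
      have := code_lt w
      rw [hw] at this
      norm_num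
      exact this)
    have hpow : (M : ℝ) ^ (1 - κ) ≤ (((2 * M : ℕ) : ℕ) : ℝ) ^ (1 - κ') := by
      calc (M : ℝ) ^ (1 - κ) ≤ (M : ℝ) ^ (1 - κ') :=
            Real.rpow_le_rpow_of_exponent_le hMR (by have := min_le_left κ 1; linarith)
        _ ≤ _ := Real.rpow_le_rpow (by positivity) (by push_cast; linarith) (by linarith)
    refine hpow.trans (hmain.trans ?_)
    apply Nat.cast_le.2
    apply Finset.card_le_card_of_injOn (fun ν : ℕ => (n : ℤ) + k - ν - L + 1)
    · intro ν hν
      simp only [Finset.coe_filter, Finset.mem_range, Set.mem_ofPred_eq, Finset.mem_Icc] at hν ⊢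
      obtain ⟨-, hν1, hν2, hν3⟩ := hν
      rw [← hl] at hν2
      have hν1R : (u : ℝ) ≤ ν := by exact_mod_cast hν1
      have hν2R : (ν : ℝ) + L ≤ e := by exact_mod_cast hν2
      rw [heR] at hν2R
      have hup : (((n : ℤ) + k - ν - L + 1 : ℤ) : ℝ) + L ≤ A + ε * n := by
        push_cast
        linarith
      refine ⟨⟨?_, ?_⟩, hup, ?_⟩
      · have : (A : ℝ) ≤ ((n + k - ν - L + 1 : ℤ) : ℝ) := by
          push_cast
          linarith
        exact_mod_cast this
      · rw [Int.le_floor]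
        have : (0 : ℝ) ≤ L := Nat.cast_nonneg _
        linarith
      · apply shows_of hβ hrep
        have e3 : (6 : ℝ) ^ ((n : ℤ) + k - ν - L + 1 + w.length - 1) * ((3 / 2) ^ n * (m / 6 ^ k)) =
            ((m * 3 ^ (2 * n) : ℕ) : ℝ) / ((6 ^ ν : ℕ) : ℝ) := by
          rw [hw, show ((n : ℤ) + k - ν - L + 1 + L - 1) = ((n + k : ℕ) : ℤ) - (ν : ℕ) by
            push_cast; ring, zpow_sub₀ (by norm_num), zpow_natCast, zpow_natCast]
          push_cast
          have h9 : (3 : ℝ) ^ (2 * n) = 6 ^ n * (3 / 2) ^ n := by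
            rw [← mul_pow, pow_mul]; norm_num
          rw [h9, pow_add]
          field_simp
        rw [e3, Nat.floor_div_eq_div, hw]
        have h6 : (3 * 2 : ℕ) = 6 := by norm_num
        rw [h6] at hν3
        exact hν3
    · intro a _ b _ hab
      simp only at hab
      omega
  refine le_trans (Nat.cast_le.2 (Finset.card_le_card hsub)) ?_
  refine le_trans (Nat.cast_le.2 (Finset.card_union_le _ _)) ?_
  rw [Nat.cast_add]
  have h1 : (((Finset.range n1 ∪ Finset.range n2).card : ℕ) : ℝ) ≤ n1 + n2 := by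
    have := Finset.card_union_le (Finset.range n1) (Finset.range n2)
    rw [Finset.card_range, Finset.card_range] at this
    exact_mod_cast this
  have h2 : (n2 : ℝ) < δ / 4 * M + 1 := Nat.ceil_lt_add_one (by positivity)
  have h3 : (M₂ : ℝ) ≤ M := by exact_mod_cast hMM₂
  have h4 := hM₂.trans h3
  rw [div_le_iff₀ (by positivity)] at h4
  have h5 : ((Bad.image (fun t => s + t / 2)).card : ℝ) ≤ δ / 8 * ((2 * M : ℕ) : ℝ) :=
    le_trans (Nat.cast_le.2 Finset.card_image_le) hBadc
  push_cast at h5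
  linarith

end Pool.Agent.Results.MP_cc0c1a_nt.WordsInRowWindows
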